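import Pool.Agent.W264.AV.Mid

/-! All sizes for even order. -/

set_option autoImplicit false
set_option linter.unusedSectionVars false

namespace Pool.Agent.W264.AV

open Finset Pool.Agent.H598R3

variable {F : Type*} [Field F] [Fintype F] [DecidableEq F]

lemma exists_V [CharP F 2] (N : ℕ) (hq : Fintype.card F = 2 ^ (N + 1)) :
    ∃ V : AddSubgroup F, Nat.card V = 2 ^ N ∧ ∀ z : F, z ^ 2 + z ∈ V := by
  classical
  set φ : F →+ F := (frobenius F 2).toAddMonoidHom + AddMonoidHom.id F with hφ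
  have hφa : ∀ z, φ z = z ^ 2 + z := by
    intro z
    simp [hφ, frobenius_def]
  refine ⟨φ.range, ?_, ?_⟩
  · have h1 : Nat.card F = Nat.card (F ⧸ φ.ker) * Nat.card φ.ker :=
      AddSubgroup.card_eq_card_quotient_mul_card_addSubgroup φ.ker
    have h2 : Nat.card (F ⧸ φ.ker) = Nat.card φ.range :=
      Nat.card_congr (QuotientAddGroup.quotientKerEquivRange φ).toEquiv
    have h4 : (φ.ker : Set F) = {0, 1} := by
      ext x
      rw [SetLike.mem_coe, AddMonoidHom.mem_ker, hφa, Set.mem_insert_iff, Set.mem_singleton_iff]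
      constructor
      · intro h5
        have h6 : x * (x + 1) = 0 := by linear_combination h5
        rcases mul_eq_zero.1 h6 with h7 | h7
        · exact Or.inl h7
        · right
          have := eq_neg_of_add_eq_zero_left h7
          rw [this, CharTwo.neg_eq]
      · rintro (rfl | rfl)
        · ring
        · rw [one_pow]; exact CharTwo.add_self_eq_zero 1
    have h3 : Nat.card φ.ker = 2 := by
      have h5 : Nat.card φ.ker = (φ.ker : Set F).ncard := Nat.card_coe_set_eq _
      rw [h5, h4, Set.ncard_pair (zero_ne_one (α := F))]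
    rw [Nat.card_eq_fintype_card, hq, h2, h3, pow_succ] at h1
    omega
  · intro z
    exact ⟨z, hφa z⟩

lemma exists_ne_zero (A : AddSubgroup F) (h : Nat.card A = 2 ^ 1) : ∃ e ∈ A, e ≠ 0 := by
  classical
  by_contra hcon
  push Not at hcon
  rw [← card_sub] at h
  have h1 : (univ.filter (fun x => x ∈ A)) ⊆ ({0} : Finset F) := by
    intro x hx
    rw [mem_filter] at hx
    rw [mem_singleton]
    exact hcon x hx.2
  have h2 := card_le_card h1
  rw [card_singleton] at h2
  omega

theorem mid_even' [CharP F 2] (n : ℕ) (hq : Fintype.card F = 2 ^ (n + 3)) (i0 : ℕ)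
    (h0 : 2 ≤ i0) (hin : i0 + 2 ≤ n) (hb : 6 * 2 ^ i0 + 12 ≤ 2 ^ n) (k m : ℕ)
    (hk1 : 2 ^ i0 + 3 ≤ k) (hk2 : k ≤ 2 * 2 ^ i0 + 2) (hk3 : 4 * n + 8 ≤ k)
    (hm1 : k * Fintype.card F ≤ m + 3 * Fintype.card F)
    (hm2 : m ≤ (k + 3) * Fintype.card F) : Sz F k m := by
  classical
  obtain ⟨V, hV1, hV2⟩ := exists_V (F := F) (n + 2) hq
  obtain ⟨W, hW1, hW2, hW3⟩ := exists_chain (n + 2) V hV1
  obtain ⟨C, hC1, hC2, hC3⟩ := exists_chain (n + 3) (⊤ : AddSubgroup F) (by
    rw [Nat.card_congr (AddSubgroup.topEquiv (G := F)).toEquiv, Nat.card_eq_fintype_card, hq])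
  have hfl : Flags W (fun i => C (n + 3 - i)) n := by
    refine ⟨?_, ?_, ?_, ?_⟩
    · intro i _ hi; exact hW2 i (by omega)
    · intro i hi
      show Fintype.card F = Nat.card (C (n + 3 - i)) * 2 ^ i
      rw [hC2 _ (by omega), hq, ← pow_add]
      congr 1
      omega
    · intro i _ hi; exact hW3 i (by omega)
    · intro i hi
      have := hC3 (n + 3 - (i + 1)) (by omega)
      rwa [show n + 3 - (i + 1) + 1 = n + 3 - i by omega] at this
  have hY0 : ∀ y : F, y ∈ (fun i => C (n + 3 - i)) 0 := by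
    intro y
    show y ∈ C (n + 3)
    rw [hC1]
    exact AddSubgroup.mem_top y
  obtain ⟨e, he1, he2⟩ := exists_ne_zero (W 1) (hW2 1 (by omega))
  obtain ⟨y1, hy1, hy2⟩ := exists_ne_zero (C 1) (hC2 1 (by omega))
  have heW : ∀ i, i ≤ n + 1 → e ∈ W (i + 1) := by
    intro i
    induction i with
    | zero => intro _; exact he1
    | succ i ih => intro hi; exact hW3 (i + 1) (by omega) (ih (by omega))
  have hyC : ∀ i, i ≤ n + 2 → y1 ∈ C (i + 1) := by
    intro i
    induction i with
    | zero => intro _; exact hy1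
    | succ i ih => intro hi; exact hC3 (i + 1) (by omega) (ih (by omega))
  have hyY : ∀ i ≤ n, y1 ∈ (fun i => C (n + 3 - i)) i := by
    intro i hi
    have := hyC (n + 3 - i - 1) (by omega)
    show y1 ∈ C (n + 3 - i)
    rwa [show n + 3 - i - 1 + 1 = n + 3 - i by omega] at this
  have hβ : e / y1 ≠ 0 := div_ne_zero he2 hy2
  have hp : ks W (fun i => C (n + 3 - i)) i0 n (e / y1) 0 = 0 := by
    apply ks_eq_zero i0 hfl hY0 (e / y1) 0 y1 hy2 hyY _ n (le_refl _)
    intro i h1 h2
    have h3 : e / y1 * y1 = e := by field_simp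
    rw [h3]
    have := heW (i - 1) (by omega)
    rwa [show i - 1 + 1 = i by omega] at this
  have hp0 : ks W (fun i => C (n + 3 - i)) i0 n (0 : F) 0 = 0 := by
    apply ks_eq_zero i0 hfl hY0 0 0 y1 hy2 hyY _ n (le_refl _)
    intro i h1 h2
    rw [zero_mul]
    exact (W i).zero_mem
  obtain ⟨γ, hγ⟩ : ∃ γ : F, γ ∉ V := by
    by_contra hcon
    push Not at hcon
    rw [← card_sub] at hV1
    have h1 : (univ.filter (fun x => x ∈ V)) = (univ : Finset F) := by
      ext x; simp [hcon x]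
    rw [h1, card_univ, hq, show n + 3 = (n + 2) + 1 by ring, pow_succ] at hV1
    have : 0 < 2 ^ (n + 2) := by positivity
    omega
  have hWV : W (n + 1) ≤ V := by
    rw [← hW1]
    exact hW3 (n + 1) (by omega)
  exact mid_main i0 hfl hq hY0 (e / y1) γ hβ hp hp0 V hV2 hγ hWV h0 hin hb k m hk1 hk2 hk3 hm1 hm2

lemma half_even [CharP F 2] (n : ℕ) (hq : Fintype.card F = 2 ^ (n + 3)) (k m : ℕ)
    (hk : 12 * k + 12 ≤ 2 ^ n * 2) (hk7 : 7 ≤ k) (hk3 : 4 * n + 8 ≤ k)
    (hm : m ≤ Fintype.card F ^ 2 + Fintype.card F + 1) : Sz F k m := by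
  set i0 := Nat.log 2 (k - 3) with hi0
  have e1 : 2 ^ i0 ≤ k - 3 := Nat.pow_log_le_self 2 (by omega)
  have e2 : k - 3 < 2 ^ (i0 + 1) := Nat.lt_pow_succ_log_self (by omega) _
  have e3 : (2 : ℕ) ^ (i0 + 1) = 2 * 2 ^ i0 := by rw [pow_succ]; ring
  have h0 : 2 ≤ i0 := by
    by_contra hcon
    have : i0 + 1 ≤ 2 := by omega
    have h2 : 2 ^ (i0 + 1) ≤ 2 ^ 2 := Nat.pow_le_pow_right (by omega) this
    omega
  have hb : 6 * 2 ^ i0 + 12 ≤ 2 ^ n := by omega
  have hin : i0 + 2 ≤ n := by
    have h1 : 2 ^ (i0 + 2) ≤ 2 ^ n := by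
      have : (2 : ℕ) ^ (i0 + 2) = 4 * 2 ^ i0 := by rw [pow_add]; ring
      omega
    exact (Nat.pow_le_pow_iff_right (by omega)).1 h1
  have hq8 : Fintype.card F = 8 * 2 ^ n := by rw [hq, pow_add]; ring
  by_cases h1 : m < (k - 2) * Fintype.card F
  · exact small (by omega) (by omega) h1
  push Not at h1
  by_cases h2 : m ≤ (k + 3) * Fintype.card F
  · refine mid_even' n hq i0 h0 hin hb k m (by omega) (by omega) hk3 ?_ h2
    have : (k - 2) * Fintype.card F + 2 * Fintype.card F = k * Fintype.card F := by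
      rw [← add_mul]; congr 1; omega
    omega
  push Not at h2
  obtain ⟨m', hm'⟩ : ∃ m', m + m' = Fintype.card F ^ 2 + Fintype.card F + 1 :=
    ⟨_, Nat.add_sub_cancel' hm⟩
  obtain ⟨k', hk'⟩ : ∃ k', k + k' = Fintype.card F + 1 := ⟨Fintype.card F + 1 - k, by omega⟩
  have h3 : Sz F k' m' := by
    apply small (by omega) (by omega)
    have h4 : (k' - 2) + k + 1 = Fintype.card F := by omega
    have h5 : (k' - 2) * Fintype.card F + (k + 1) * Fintype.card F = Fintype.card F ^ 2 := by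
      rw [← add_mul, ← add_assoc, h4, sq]
    have h6 : (k + 3) * Fintype.card F = (k + 1) * Fintype.card F + 2 * Fintype.card F := by ring
    omega
  exact h3.compl (by omega) (by omega)

/-- the half range, with the constant `10 ^ 9` -/
lemma half_range [CharP F 2] (k m : ℕ)
    (h1 : 10 ^ 9 * Real.log (Fintype.card F : ℝ) ≤ (k : ℝ)) (h2 : 2 * k ≤ Fintype.card F + 1)
    (hm : m ≤ Fintype.card F ^ 2 + Fintype.card F + 1) : Sz F k m := by
  obtain ⟨e, -, he⟩ := FiniteField.card F 2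
  obtain ⟨h, hh⟩ : ∃ h : ℕ, h = (e : ℕ) := ⟨_, rfl⟩
  rw [← hh] at he
  have hlog : Real.log (Fintype.card F : ℝ) = h * Real.log 2 := by
    rw [he]; push_cast; rw [Real.log_pow]
  have hl2 : (0.69 : ℝ) < Real.log 2 := by
    have := Real.log_two_gt_d9; linarith
  have hhpos : 1 ≤ h := by rw [hh]; exact e.pos
  have hhr : (1 : ℝ) ≤ h := by exact_mod_cast hhpos
  have hk1 : (0.69 * 10 ^ 9 : ℝ) * h ≤ k := by
    rw [hlog] at h1
    nlinarith
  have hk1' : 600000000 * h ≤ k := by
    have : (600000000 : ℝ) * h ≤ k := by nlinarith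
    exact_mod_cast this
  have hh30 : 30 ≤ h := by
    by_contra hcon
    have h3 : h ≤ 29 := by omega
    have h4 : 2 ^ h ≤ 2 ^ 29 := Nat.pow_le_pow_right (by omega) h3
    have h5 : (2 : ℕ) ^ 29 = 536870912 := by norm_num
    omega
  obtain ⟨n, hn⟩ : ∃ n, h = n + 3 := ⟨h - 3, by omega⟩
  have hq : Fintype.card F = 2 ^ (n + 3) := by rw [he, hn]
  by_cases hbig : 100 * Real.sqrt (Fintype.card F : ℝ) < (k : ℝ)
  · apply all_sizes k hbig _ m hm
    have h3 : (2 : ℝ) * k ≤ (Fintype.card F : ℝ) + 1 := by exact_mod_cast h2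
    -- `q + 1 - 100 √q > k`
    set s := Real.sqrt (Fintype.card F : ℝ) with hs
    have hss : s * s = Fintype.card F := Real.mul_self_sqrt (by positivity)
    have hs0 : 0 ≤ s := Real.sqrt_nonneg _
    have hq30 : (2 : ℝ) ^ 30 ≤ (Fintype.card F : ℝ) := by
      have h4 : 2 ^ 30 ≤ Fintype.card F := by
        rw [he]; exact Nat.pow_le_pow_right (by omega) hh30
      exact_mod_cast h4
    have hs1 : 1000 ≤ s := by
      by_contra hcon
      push Not at hcon
      have : s * s ≤ 1000 * 1000 := by nlinarith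
      norm_num at hq30
      linarith
    nlinarith
  · push Not at hbig
    set s := Real.sqrt (Fintype.card F : ℝ) with hs
    have hss : s * s = Fintype.card F := Real.mul_self_sqrt (by positivity)
    have hs0 : 0 ≤ s := Real.sqrt_nonneg _
    have hq30 : (2 : ℝ) ^ 30 ≤ (Fintype.card F : ℝ) := by
      have h4 : 2 ^ 30 ≤ Fintype.card F := by
        rw [he]; exact Nat.pow_le_pow_right (by omega) hh30
      exact_mod_cast h4
    have hs1 : 20000 ≤ s := by
      by_contra hcon
      push Not at hcon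
      have : s * s ≤ 20000 * 20000 := by nlinarith
      norm_num at hq30
      linarith
    apply half_even n hq k m _ (by omega) (by omega) hm
    have h5 : (12 * (k : ℝ) + 12) * 4 ≤ (Fintype.card F : ℝ) := by
      rw [← hss]; nlinarith
    have h6 : (12 * k + 12) * 4 ≤ Fintype.card F := by exact_mod_cast h5
    have hq8 : Fintype.card F = 8 * 2 ^ n := by rw [hq, pow_add]; ring
    omega

theorem all_even [CharP F 2] (k : ℕ)
    (h1 : 10 ^ 9 * Real.log (Fintype.card F : ℝ) ≤ (k : ℝ))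
    (h2 : (k : ℝ) ≤ (Fintype.card F : ℝ) + 1 - 10 ^ 9 * Real.log (Fintype.card F : ℝ)) (m : ℕ)
    (hm : m ≤ Fintype.card F ^ 2 + Fintype.card F + 1) : Sz F k m := by
  have hlog : 0 ≤ Real.log (Fintype.card F : ℝ) := by
    apply Real.log_nonneg
    have : 1 ≤ Fintype.card F := Fintype.card_pos
    exact_mod_cast this
  by_cases hh : 2 * k ≤ Fintype.card F + 1
  · exact half_range k m h1 hh hm
  · have hkq : k ≤ Fintype.card F + 1 := by
      have : (k : ℝ) ≤ (Fintype.card F : ℝ) + 1 := by linarith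
      exact_mod_cast this
    obtain ⟨m', hm'⟩ : ∃ m', m + m' = Fintype.card F ^ 2 + Fintype.card F + 1 :=
      ⟨_, Nat.add_sub_cancel' hm⟩
    obtain ⟨k', hk'⟩ : ∃ k', k + k' = Fintype.card F + 1 := ⟨_, Nat.add_sub_cancel' hkq⟩
    have hk'r : (k : ℝ) + k' = Fintype.card F + 1 := by exact_mod_cast hk'
    have h3 : Sz F k' m' := half_range k' m' (by linarith) (by omega) (by omega)
    exact h3.compl (by omega) (by omega)

end Pool.Agent.W264.AV
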