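import Pool.Agent.W264.AV.KS

/-! Adding one point in each row. -/

set_option autoImplicit false
set_option linter.unusedSectionVars false

namespace Pool.Agent.W264.AV

open Finset Pool.Agent.H598R3

variable {F : Type*} [Field F] [Fintype F] [DecidableEq F]

/-- the added point -/
def fb (b γ : F) (y : F) : F := (b * y) ^ 2 + b * y + γ

/-- parity of the number of common points with the line `(u, v)` -/
def gb (b γ u v : F) : ZMod 2 := ∑ y : F, if u * y + v = fb b γ y then (1 : ZMod 2) else 0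

lemma card_even [CharP F 2] : ((Fintype.card F : ℕ) : ZMod 2) = 0 := by
  have h1 : ringChar F = 2 := (ringChar.eq F 2).symm ▸ rfl
  have h2 := FiniteField.even_card_iff_char_two.1 h1
  rw [ZMod.natCast_eq_zero_iff]
  omega

lemma gb_zero_ne (γ u v : F) (hu : u ≠ 0) : gb 0 γ u v = 1 := by
  unfold gb
  rw [Finset.sum_eq_single ((γ - v) / u)]
  · rw [if_pos]
    unfold fb
    field_simp
    ring
  · intro z _ hz
    rw [if_neg]
    intro h
    apply hz
    unfold fb at h
    rw [eq_div_iff hu]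
    linear_combination h
  · intro h; exact absurd (mem_univ _) h

lemma gb_zero_zero [CharP F 2] (γ v : F) : gb 0 γ 0 v = 0 := by
  unfold gb
  have : ∀ y : F, (if (0 : F) * y + v = fb 0 γ y then (1 : ZMod 2) else 0) =
      if v = γ then 1 else 0 := by
    intro y
    simp [fb]
  rw [Finset.sum_congr rfl (fun y _ => this y), Finset.sum_const, card_univ, nsmul_eq_mul,
    card_even, zero_mul]

lemma gb_ne [CharP F 2] (b γ u v : F) (hb : b ≠ 0) (hu : u ≠ b) : gb b γ u v = 0 := by
  unfold gb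
  rw [← Finset.sum_filter]
  have h2 : (2 : F) = 0 := CharTwo.two_eq_zero
  have hne : (u + b) / b ^ 2 ≠ 0 := by
    apply div_ne_zero _ (pow_ne_zero _ hb)
    intro h
    apply hu
    have : u = -b := eq_neg_of_add_eq_zero_left h
    rw [this, CharTwo.neg_eq]
  apply Finset.sum_involution (fun y _ => y + (u + b) / b ^ 2)
  · intro y _
    decide
  · intro y _ _ h1
    exact hne (by simpa using h1)
  · intro y _
    rw [add_assoc, CharTwo.add_self_eq_zero, add_zero]
  · intro y hy
    rw [mem_filter] at hy ⊢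
    refine ⟨mem_univ _, ?_⟩
    have h3 := hy.2
    unfold fb at h3 ⊢
    have h4 : (b * (y + (u + b) / b ^ 2)) ^ 2 + b * (y + (u + b) / b ^ 2) + γ =
        ((b * y) ^ 2 + b * y + γ) + 2 * (y * (u + b)) + (u + b) * (u + b) / b ^ 2
          + b * (u + b) / b ^ 2 := by
      field_simp
      ring
    rw [h4, ← h3, h2, zero_mul, add_zero]
    have h5 : u * (y + (u + b) / b ^ 2) + v = u * y + v + u * (u + b) / b ^ 2 := by
      field_simp
      ring
    rw [h5]
    have h6 : (u + b) * (u + b) / b ^ 2 + b * (u + b) / b ^ 2 =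
      u * (u + b) / b ^ 2 + 2 * (b * (u + b) / b ^ 2) := by ring
    rw [add_assoc (u * y + v) _ _, h6, h2, zero_mul, add_zero]

lemma gb_eq [CharP F 2] (b γ v : F) (hb : b ≠ 0) : gb b γ b v = 1 := by
  unfold gb
  obtain ⟨z, hz⟩ : ∃ z : F, z ^ 2 = v - γ := by
    have := (frobenius_inj F 2)
    have h2 : Function.Surjective (frobenius F 2) := Finite.surjective_of_injective this
    obtain ⟨z, hz⟩ := h2 (v - γ)
    exact ⟨z, by simpa [frobenius_def] using hz⟩
  rw [Finset.sum_eq_single (z / b)]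
  · rw [if_pos]
    unfold fb
    have : b * (z / b) = z := by field_simp
    rw [this, hz]
    ring
  · intro y _ hy
    rw [if_neg]
    intro h
    apply hy
    unfold fb at h
    have h3 : (b * y) ^ 2 = z ^ 2 := by rw [hz]; linear_combination -h
    have h4 : b * y = z := by
      have h5 : frobenius F 2 (b * y) = frobenius F 2 z := by
        simpa [frobenius_def] using h3
      exact frobenius_inj F 2 h5
    rw [← h4]; field_simp
  · intro h; exact absurd (mem_univ _) h

variable {W Y : ℕ → AddSubgroup F} {n : ℕ} (i0 : ℕ)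

/-- parity of the rows `some y` -/
noncomputable def Pb (W Y : ℕ → AddSubgroup F) (i0 n : ℕ) (b γ u : F) : ZMod 2 :=
  ks W Y i0 n u 0 + gb b γ u 0

/-- the full family -/
noncomputable def Kb (W Y : ℕ → AddSubgroup F) (i0 n : ℕ) (b γ : F) (π : ZMod 2) :
    Option F → Finset F
  | none => univ.filter (fun u => Pb W Y i0 n b γ u ≠ π)
  | some y => insert (fb b γ y) (KS W Y i0 n y)

lemma fb_notMem (h : Flags W Y n) (b γ : F) (V : AddSubgroup F) (hV : ∀ z : F, z ^ 2 + z ∈ V)
    (hγ : γ ∉ V) (hWV : W (n + 1) ≤ V) (y : F) : fb b γ y ∉ KS W Y i0 n y := by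
  intro hc
  have h1 := hWV (KS_sub i0 h y n (le_refl _) _ hc)
  apply hγ
  have h2 := V.sub_mem h1 (hV (b * y))
  have h3 : fb b γ y - ((b * y) ^ 2 + b * y) = γ := by unfold fb; ring
  rwa [h3] at h2

lemma gb_const [CharP F 2] (b γ u v v' : F) : gb b γ u v = gb b γ u v' := by
  by_cases hb : b = 0
  · subst hb
    by_cases hu : u = 0
    · subst hu; rw [gb_zero_zero, gb_zero_zero]
    · rw [gb_zero_ne _ _ _ hu, gb_zero_ne _ _ _ hu]
  · by_cases hu : u = b
    · subst hu; rw [gb_eq _ _ _ hb, gb_eq _ _ _ hb]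
    · rw [gb_ne _ _ _ _ hb hu, gb_ne _ _ _ _ hb hu]

lemma Kb_parity [CharP F 2] (h : Flags W Y n) (hY0 : ∀ y, y ∈ Y 0) (b γ : F) (π : ZMod 2)
    (V : AddSubgroup F) (hV : ∀ z : F, z ^ 2 + z ∈ V)
    (hγ : γ ∉ V) (hWV : W (n + 1) ≤ V) (u v : F) :
    (((univ : Finset (Option F)).filter (fun r => pos u v r ∈ Kb W Y i0 n b γ π r)).card : ZMod 2)
      = π := by
  rw [card_eq_sum_ind, Fintype.sum_option]
  have h1 : ∑ y : F, ind (Kb W Y i0 n b γ π (some y)) (pos u v (some y)) =
      ks W Y i0 n u v + gb b γ u v := by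
    unfold ks gb
    rw [← Finset.sum_add_distrib]
    apply Finset.sum_congr rfl
    intro y _
    have h2 := fb_notMem i0 h b γ V hV hγ hWV y
    simp only [ind, pos, Kb, mem_insert]
    by_cases h3 : u * y + v = fb b γ y
    · rw [h3]; simp [h2]
    · simp [h3]
  have h2 : ks W Y i0 n u v + gb b γ u v = Pb W Y i0 n b γ u := by
    unfold Pb
    rw [ks_const i0 h hY0 u v 0 n (le_refl _), gb_const b γ u v 0]
  rw [h1, h2]
  simp only [ind, pos, Kb, mem_filter, mem_univ, true_and]
  clear h1 h2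
  generalize Pb W Y i0 n b γ u = p
  revert p π
  decide

lemma Kb_card_some (h : Flags W Y n) (b γ : F) (π : ZMod 2)
    (V : AddSubgroup F) (hV : ∀ z : F, z ^ 2 + z ∈ V)
    (hγ : γ ∉ V) (hWV : W (n + 1) ≤ V) (y : F) :
    (Kb W Y i0 n b γ π (some y)).card = (KS W Y i0 n y).card + 1 := by
  simp only [Kb]
  rw [card_insert_of_notMem (fb_notMem i0 h b γ V hV hγ hWV y)]

lemma mem_Kb_none (b γ : F) (π : ZMod 2) (u : F) :
    u ∈ Kb W Y i0 n b γ π none ↔ Pb W Y i0 n b γ u ≠ π := by
  simp only [Kb, mem_filter, mem_univ, true_and]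

/-- number of odd directions -/
noncomputable def N1 (W Y : ℕ → AddSubgroup F) (i0 n : ℕ) : ℕ :=
  ((univ : Finset F).filter (fun u => ks W Y i0 n u 0 ≠ 0)).card

lemma zmod2_cases (x : ZMod 2) : x = 0 ∨ x = 1 := by revert x; decide

lemma card_compl_pi (b γ : F) : (Kb W Y i0 n b γ 1 none).card =
    Fintype.card F - (Kb W Y i0 n b γ 0 none).card := by
  rw [← card_compl]
  congr 1
  ext u
  rw [mem_compl, mem_Kb_none, mem_Kb_none]
  generalize Pb W Y i0 n b γ u = p
  revert p
  decide

lemma card_b (β γ : F) [CharP F 2] (hβ : β ≠ 0) (hp : ks W Y i0 n β 0 = 0) :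
    (Kb W Y i0 n β γ 0 none).card = N1 W Y i0 n + 1 := by
  have h1 : Kb W Y i0 n β γ 0 none =
      insert β ((univ : Finset F).filter (fun u => ks W Y i0 n u 0 ≠ 0)) := by
    ext u
    rw [mem_Kb_none, mem_insert, mem_filter]
    unfold Pb
    by_cases hu : u = β
    · subst hu
      rw [gb_eq _ _ _ hβ, hp]
      simp
    · rw [gb_ne _ _ _ _ hβ hu]
      simp [hu]
  rw [h1, card_insert_of_notMem]
  · rfl
  · simp [hp]

lemma card_0 (γ : F) [CharP F 2] (hp : ks W Y i0 n 0 0 = 0) :
    (Kb W Y i0 n 0 γ 1 none).card = N1 W Y i0 n + 1 := by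
  have h1 : Kb W Y i0 n 0 γ 1 none =
      insert 0 ((univ : Finset F).filter (fun u => ks W Y i0 n u 0 ≠ 0)) := by
    ext u
    rw [mem_Kb_none, mem_insert, mem_filter]
    unfold Pb
    by_cases hu : u = 0
    · subst hu
      rw [gb_zero_zero, hp]
      simp
    · rw [gb_zero_ne _ _ _ hu]
      simp [hu]
  rw [h1, card_insert_of_notMem]
  · rfl
  · simp [hp]

end Pool.Agent.W264.AV
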