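import Pool.Agent.H598R3.AvSmall

/-! Parity lemmas for pairs of additive subgroups. -/

set_option autoImplicit false
set_option linter.unusedSectionVars false

namespace Pool.Agent.W264.AV

open Finset Pool.Agent.H598R3

variable {F : Type*} [Field F] [Fintype F] [DecidableEq F]

open Classical in
/-- parity of the number of `y ∈ Y` with `u y + v ∈ W` -/
noncomputable def par (Y W : AddSubgroup F) (u v : F) : ZMod 2 :=
  ∑ y : F, if y ∈ Y ∧ u * y + v ∈ W then (1 : ZMod 2) else 0

open Classical in
lemma par_zero [CharP F 2] (Y W : AddSubgroup F) (u v y0 : F) (hy0 : y0 ∈ Y) (hne : y0 ≠ 0)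
    (h : u * y0 ∈ W) : par Y W u v = 0 := by
  unfold par
  rw [← Finset.sum_filter]
  apply Finset.sum_involution (fun y _ => y + y0)
  · intro y _
    decide
  · intro y _ _ h1
    exact hne (by simpa using h1)
  · intro y hy
    rw [mem_filter] at hy ⊢
    refine ⟨mem_univ _, Y.add_mem hy.2.1 hy0, ?_⟩
    have : u * (y + y0) + v = (u * y + v) + u * y0 := by ring
    rw [this]
    exact W.add_mem hy.2.2 h
  · intro y _
    rw [add_assoc, CharTwo.add_self_eq_zero, add_zero]

lemma inj_of_not (Y W : AddSubgroup F) (u : F) (h : ∀ y ∈ Y, u * y ∈ W → y = 0) :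
    Function.Injective (fun p : Y × W => u * (p.1 : F) + (p.2 : F)) := by
  rintro ⟨⟨y, hy⟩, ⟨w, hw⟩⟩ ⟨⟨y', hy'⟩, ⟨w', hw'⟩⟩ h1
  simp only at h1
  have h2 : u * (y - y') = w' - w := by linear_combination h1
  have h3 : y - y' = 0 := h _ (Y.sub_mem hy hy') (by rw [h2]; exact W.sub_mem hw' hw)
  have h4 : y = y' := sub_eq_zero.1 h3
  subst h4
  have h5 : w = w' := by linear_combination h1
  subst h5
  rfl

lemma ex_of_card (Y W : AddSubgroup F) (u : F)
    (h : Fintype.card F < Nat.card Y * Nat.card W) : ∃ y0 ∈ Y, y0 ≠ 0 ∧ u * y0 ∈ W := by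
  by_contra hcon
  push Not at hcon
  have h1 := inj_of_not Y W u (fun y hy h2 => by
    by_contra h3
    exact hcon y hy h3 h2)
  have h2 := Nat.card_le_card_of_injective _ h1
  rw [Nat.card_prod, Nat.card_eq_fintype_card (α := F)] at h2
  omega

open Classical in
lemma par_one (Y W : AddSubgroup F) (u v : F)
    (hc : Fintype.card F = Nat.card Y * Nat.card W) (h : ∀ y ∈ Y, u * y ∈ W → y = 0) :
    par Y W u v = 1 := by
  have h1 := inj_of_not Y W u h
  have h2 : Function.Bijective (fun p : Y × W => u * (p.1 : F) + (p.2 : F)) := by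
    rw [Nat.bijective_iff_injective_and_card]
    refine ⟨h1, ?_⟩
    rw [Nat.card_prod, Nat.card_eq_fintype_card (α := F), hc]
  obtain ⟨⟨⟨y, hy⟩, ⟨w, hw⟩⟩, h3⟩ := h2.2 v
  simp only at h3
  unfold par
  rw [Finset.sum_eq_single (-y)]
  · rw [if_pos]
    refine ⟨Y.neg_mem hy, ?_⟩
    have : u * -y + v = w := by rw [← h3]; ring
    rw [this]; exact hw
  · intro z _ hz
    rw [if_neg]
    rintro ⟨hz1, hz2⟩
    apply hz
    have h4 : u * (z + y) ∈ W := by
      have : u * (z + y) = (u * z + v) - w := by rw [← h3]; ring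
      rw [this]; exact W.sub_mem hz2 hw
    exact eq_neg_of_add_eq_zero_left (h _ (Y.add_mem hz1 hy) h4)
  · intro h4
    exact absurd (mem_univ _) h4

lemma par_const [CharP F 2] (Y W : AddSubgroup F) (u v v' : F)
    (hc : Fintype.card F = Nat.card Y * Nat.card W) : par Y W u v = par Y W u v' := by
  by_cases h : ∀ y ∈ Y, u * y ∈ W → y = 0
  · rw [par_one Y W u v hc h, par_one Y W u v' hc h]
  · push Not at h
    obtain ⟨y0, h1, h2, h3⟩ := h
    rw [par_zero Y W u v y0 h1 h3 h2, par_zero Y W u v' y0 h1 h3 h2]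

/-- chains of subgroups -/
lemma exists_chain (n : ℕ) : ∀ V : AddSubgroup F, Nat.card V = 2 ^ n →
    ∃ W : ℕ → AddSubgroup F, W n = V ∧ (∀ i ≤ n, Nat.card (W i) = 2 ^ i) ∧
      ∀ i < n, W i ≤ W (i + 1) := by
  induction n with
  | zero =>
    intro V hV
    refine ⟨fun _ => V, rfl, ?_, ?_⟩
    · intro i hi
      have : i = 0 := by omega
      subst this; exact hV
    · intro i hi; omega
  | succ n ih =>
    intro V hV
    obtain ⟨K, hK⟩ := Sylow.exists_subgroup_card_pow_prime (G := Multiplicative V) 2 (n := n)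
      (by
        have : Nat.card (Multiplicative V) = 2 ^ (n + 1) := hV
        rw [this]; exact pow_dvd_pow 2 (by omega))
    set K' : AddSubgroup V := Subgroup.toAddSubgroup' K with hK'
    have hc : Nat.card K' = 2 ^ n := hK
    set V' : AddSubgroup F := K'.map V.subtype with hV'
    have hc' : Nat.card V' = 2 ^ n := by
      rw [← hc, hV']
      exact Nat.card_congr (K'.equivMapOfInjective V.subtype (AddSubgroup.subtype_injective V)).toEquiv.symm
    have hle : V' ≤ V := AddSubgroup.map_subtype_le K'
    obtain ⟨W, h1, h2, h3⟩ := ih V' hc'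
    refine ⟨fun i => if i ≤ n then W i else V, ?_, ?_, ?_⟩
    · simp
    · intro i hi
      by_cases h : i ≤ n
      · simp only [h, if_true]; exact h2 i h
      · have : i = n + 1 := by omega
        subst this
        simp only [h, if_false]; exact hV
    · intro i hi
      by_cases h : i < n
      · simp only [h.le, if_true, show i + 1 ≤ n by omega]; exact h3 i h
      · have : i = n := by omega
        subst this
        simp only [le_refl, if_true, show ¬ (i + 1 ≤ i) by omega, if_false]
        rw [h1]; exact hle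

end Pool.Agent.W264.AV
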