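import Pool.Agent.W264.AV.Flag
import Pool.Agent.H598R3.AvAll

/-! The nested family built from two flags. -/

set_option autoImplicit false
set_option linter.unusedSectionVars false

namespace Pool.Agent.W264.AV

open Finset Pool.Agent.H598R3

variable {F : Type*} [Field F] [Fintype F] [DecidableEq F]

open Classical in
/-- the layer `W (j+1) \ W j` -/
noncomputable def Lay (W : ℕ → AddSubgroup F) (j : ℕ) : Finset F :=
  univ.filter (fun x => x ∈ W (j + 1) ∧ x ∉ W j)

open Classical in
/-- the nested family; level `i0` is skipped -/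
noncomputable def KS (W Y : ℕ → AddSubgroup F) (i0 : ℕ) : ℕ → F → Finset F
  | 0, _ => univ.filter (fun x => x ∈ W 1)
  | (j + 1), y => KS W Y i0 j y ∪ (if (j + 1 ≠ i0 ∧ y ∈ Y (j + 1)) then Lay W (j + 1) else ∅)

/-- the sizes of the levels -/
def al (i0 : ℕ) : ℕ → ℕ
  | 0 => 2
  | (j + 1) => al i0 j + (if j + 1 ≠ i0 then 2 ^ (j + 1) else 0)

/-- two flags -/
structure Flags (W Y : ℕ → AddSubgroup F) (n : ℕ) : Prop where
  cW : ∀ i, 1 ≤ i → i ≤ n + 1 → Nat.card (W i) = 2 ^ i
  cY : ∀ i ≤ n + 1, Fintype.card F = Nat.card (Y i) * 2 ^ i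
  mW : ∀ i, 1 ≤ i → i ≤ n → W i ≤ W (i + 1)
  mY : ∀ i ≤ n, Y (i + 1) ≤ Y i

variable {W Y : ℕ → AddSubgroup F} {n : ℕ} (i0 : ℕ)

lemma KS_sub (h : Flags W Y n) (y : F) : ∀ j ≤ n, ∀ x ∈ KS W Y i0 j y, x ∈ W (j + 1) := by
  intro j
  induction j with
  | zero => intro _ x hx; simpa [KS] using hx
  | succ j ih =>
    intro hj x hx
    simp only [KS] at hx
    rw [mem_union] at hx
    rcases hx with hx | hx
    · exact h.mW (j + 1) (by omega) hj (ih (by omega) x hx)
    · split_ifs at hx with h1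
      · simp only [Lay, mem_filter] at hx
        exact hx.2.1
      · simp at hx

open Classical in
lemma card_sub (V : AddSubgroup F) : (univ.filter (fun x => x ∈ V)).card = Nat.card V := by
  rw [Nat.card_eq_fintype_card, Fintype.card_subtype]

lemma card_Lay (h : Flags W Y n) (j : ℕ) (h1 : 1 ≤ j) (h2 : j ≤ n) : (Lay W j).card = 2 ^ j := by
  classical
  have h3 : Lay W j = univ.filter (fun x => x ∈ W (j + 1)) \ univ.filter (fun x => x ∈ W j) := by
    ext x; simp [Lay]
  have h4 : (univ.filter (fun x => x ∈ W j)) ⊆ (univ.filter (fun x => x ∈ W (j + 1))) := by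
    intro x hx
    rw [mem_filter] at hx ⊢
    exact ⟨mem_univ _, h.mW j h1 h2 hx.2⟩
  rw [h3, card_sdiff_of_subset h4, card_sub, card_sub, h.cW j h1 (by omega),
    h.cW (j + 1) (by omega) (by omega), pow_succ]
  omega

open Classical in
lemma disj_Lay (h : Flags W Y n) (y : F) (j : ℕ) (hj : j + 1 ≤ n) :
    Disjoint (KS W Y i0 j y) (if (j + 1 ≠ i0 ∧ y ∈ Y (j + 1)) then Lay W (j + 1) else ∅) := by
  rw [Finset.disjoint_left]
  intro x hx hx2
  have h1 := KS_sub i0 h y j (by omega) x hx
  split_ifs at hx2 with h3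
  · simp only [Lay, mem_filter] at hx2
    exact hx2.2.2 h1
  · simp at hx2

open Classical in
lemma card_step (h : Flags W Y n) (y : F) (j : ℕ) (hj : j + 1 ≤ n) :
    (KS W Y i0 (j + 1) y).card = (KS W Y i0 j y).card +
      (if (j + 1 ≠ i0 ∧ y ∈ Y (j + 1)) then 2 ^ (j + 1) else 0) := by
  have h1 : (KS W Y i0 (j + 1) y) = KS W Y i0 j y ∪
    (if (j + 1 ≠ i0 ∧ y ∈ Y (j + 1)) then Lay W (j + 1) else ∅) := by
    simp only [KS]
  rw [h1, card_union_of_disjoint]
  · congr 1
    split_ifs with h2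
    · exact card_Lay h (j + 1) (by omega) hj
    · rfl
  · exact disj_Lay i0 h y j hj

lemma card_zero (h : Flags W Y n) (y : F) : (KS W Y i0 0 y).card = 2 := by
  classical
  have h1 : KS W Y i0 0 y = univ.filter (fun x => x ∈ W 1) := by
    simp only [KS]
  rw [h1, card_sub, h.cW 1 (by omega) (by omega)]
  norm_num

lemma card_mem (h : Flags W Y n) (y : F) : ∀ j ≤ n, y ∈ Y j → (KS W Y i0 j y).card = al i0 j := by
  intro j
  induction j with
  | zero => intro _ _; rw [card_zero i0 h]; rfl
  | succ j ih =>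
    intro hj hy
    rw [card_step i0 h y j hj, ih (by omega) (h.mY j (by omega) hy)]
    simp only [al, hy, and_true]

lemma card_notMem (h : Flags W Y n) (y : F) (j : ℕ) (hy : y ∉ Y (j + 1)) :
    ∀ l, j + l ≤ n → (KS W Y i0 (j + l) y).card = (KS W Y i0 j y).card := by
  have hY : ∀ l, j + l ≤ n → y ∉ Y (j + l + 1) := by
    intro l
    induction l with
    | zero => intro _; exact hy
    | succ l ih =>
      intro hl hc
      exact ih (by omega) (h.mY (j + l + 1) (by omega) hc)
  intro l
  induction l with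
  | zero => intro _; rfl
  | succ l ih =>
    intro hl
    rw [show j + (l + 1) = (j + l) + 1 by ring, card_step i0 h y (j + l) (by omega), ih (by omega),
      if_neg (fun hc => hY l (by omega) hc.2), add_zero]

lemma card_level (h : Flags W Y n) (y : F) : ∀ j ≤ n, ∃ l ≤ j, (KS W Y i0 j y).card = al i0 l := by
  intro j
  induction j with
  | zero => intro _; exact ⟨0, le_refl _, by rw [card_zero i0 h]; rfl⟩
  | succ j ih =>
    intro hj
    by_cases hy : y ∈ Y (j + 1)
    · exact ⟨j + 1, le_refl _, card_mem i0 h y (j + 1) hj hy⟩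
    · obtain ⟨l, hl, h1⟩ := ih (by omega)
      refine ⟨l, by omega, ?_⟩
      have := card_notMem i0 h y j hy 1 hj
      rw [this, h1]

lemma sum_card_le (h : Flags W Y n) : ∀ j ≤ n,
    ∑ y, (KS W Y i0 j y).card ≤ (j + 2) * Fintype.card F := by
  classical
  intro j
  induction j with
  | zero =>
    intro _
    rw [Finset.sum_congr rfl (fun y _ => card_zero i0 h y)]
    simp [mul_comm]
  | succ j ih =>
    intro hj
    rw [Finset.sum_congr rfl (fun y _ => card_step i0 h y j hj), Finset.sum_add_distrib]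
    have h1 : ∑ y : F, (if (j + 1 ≠ i0 ∧ y ∈ Y (j + 1)) then 2 ^ (j + 1) else 0) ≤
        Fintype.card F := by
      calc ∑ y : F, (if (j + 1 ≠ i0 ∧ y ∈ Y (j + 1)) then 2 ^ (j + 1) else 0)
          ≤ ∑ y : F, (if (y ∈ Y (j + 1)) then 2 ^ (j + 1) else 0) := by
            apply Finset.sum_le_sum
            intro y _
            by_cases h1 : y ∈ Y (j + 1)
            · simp only [h1, and_true, if_true]; split_ifs <;> simp
            · simp [h1]
        _ = Fintype.card F := by
            rw [← Finset.sum_filter, Finset.sum_const, card_sub, smul_eq_mul,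
              h.cY (j + 1) (by omega)]
    have h2 := ih (by omega)
    have h3 : (j + 1 + 2) * Fintype.card F = (j + 2) * Fintype.card F + Fintype.card F := by ring
    omega

/-- parity of the number of points of the line `(u, v)` in the family -/
noncomputable def ks (W Y : ℕ → AddSubgroup F) (i0 : ℕ) (j : ℕ) (u v : F) : ZMod 2 :=
  ∑ y : F, ind (KS W Y i0 j y) (u * y + v)

lemma ks_zero (h : Flags W Y n) (hY0 : ∀ y, y ∈ Y 0) [CharP F 2] (u v : F) :
    ks W Y i0 0 u v = 0 := by
  classical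
  have h1 : ks W Y i0 0 u v = par (Y 0) (W 1) u v := by
    unfold ks par
    apply Finset.sum_congr rfl
    intro y _
    unfold ind
    simp [KS, hY0 y]
  have h2 := h.cY 0 (by omega)
  have h3 := h.cW 1 (by omega) (by omega)
  obtain ⟨y0, h4, h5, h6⟩ := ex_of_card (Y 0) (W 1) u (by
    rw [h3]
    have : 0 < Fintype.card F := Fintype.card_pos
    omega)
  rw [h1, par_zero (Y 0) (W 1) u v y0 h4 h5 h6]

lemma ks_succ (h : Flags W Y n) [CharP F 2] (u v : F) (j : ℕ) (hj : j + 1 ≤ n) :
    ks W Y i0 (j + 1) u v = ks W Y i0 j u v +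
      (if j + 1 ≠ i0 then par (Y (j + 1)) (W (j + 1)) u v else 0) := by
  classical
  have h2 := h.cY (j + 1) (by omega)
  have h3 := h.cW (j + 2) (by omega) (by omega)
  have hz : par (Y (j + 1)) (W (j + 2)) u v = 0 := by
    obtain ⟨y0, h4, h5, h6⟩ := ex_of_card (Y (j + 1)) (W (j + 2)) u (by
      rw [h3]
      have h7 : 0 < Fintype.card F := Fintype.card_pos
      have h8 : Nat.card (Y (j + 1)) * 2 ^ (j + 2) = 2 * Fintype.card F := by
        rw [h2]; ring
      rw [h8]; omega)
    exact par_zero _ _ u v y0 h4 h5 h6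
  have key : ∀ y : F, ind (KS W Y i0 (j + 1) y) (u * y + v) = ind (KS W Y i0 j y) (u * y + v) +
      (if j + 1 ≠ i0 then ((if y ∈ Y (j + 1) ∧ u * y + v ∈ W (j + 2) then (1 : ZMod 2) else 0) +
        (if y ∈ Y (j + 1) ∧ u * y + v ∈ W (j + 1) then (1 : ZMod 2) else 0)) else 0) := by
    intro y
    have hs := KS_sub i0 h y j (by omega) (u * y + v)
    have hm : u * y + v ∈ W (j + 1) → u * y + v ∈ W (j + 2) := fun hh => h.mW (j + 1) (by omega) hj hh
    have h4 : (u * y + v ∈ KS W Y i0 (j + 1) y) ↔ (u * y + v ∈ KS W Y i0 j y ∨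
        (j + 1 ≠ i0 ∧ y ∈ Y (j + 1) ∧ u * y + v ∈ W (j + 2) ∧ u * y + v ∉ W (j + 1))) := by
      simp only [KS, mem_union]
      split_ifs with h5
      · simp only [Lay, mem_filter, mem_univ, true_and]
        tauto
      · simp only [notMem_empty, or_false]
        tauto
    have h11 : (1 : ZMod 2) + 1 = 0 := by decide
    unfold ind
    simp only [h4]
    by_cases ha : u * y + v ∈ KS W Y i0 j y
    · have hb := hs ha
      have hc := hm hb
      simp only [ha, hb, hc, true_or, if_true, and_true]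
      by_cases hd : j + 1 ≠ i0 <;> by_cases he : y ∈ Y (j + 1) <;> simp [hd, he, h11]
    · by_cases hb : u * y + v ∈ W (j + 1)
      · have hc := hm hb
        simp only [ha, hb, hc, false_or, not_true, and_false, if_false, and_true, zero_add]
        by_cases hd : j + 1 ≠ i0 <;> by_cases he : y ∈ Y (j + 1) <;> simp [hd, he, h11]
      · simp only [ha, hb, false_or, not_false_eq_true, and_true, and_false, if_false, zero_add,
          add_zero]
        by_cases hd : j + 1 ≠ i0 <;> simp [hd]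
  unfold ks
  rw [Finset.sum_congr rfl (fun y _ => key y), Finset.sum_add_distrib]
  congr 1
  by_cases hd : j + 1 ≠ i0
  · simp only [hd, if_true, ne_eq, not_false_eq_true]
    rw [Finset.sum_add_distrib]
    have e1 : ∑ y : F, (if y ∈ Y (j + 1) ∧ u * y + v ∈ W (j + 2) then (1 : ZMod 2) else 0) =
      par (Y (j + 1)) (W (j + 2)) u v := by
      unfold par; rfl
    have e2 : ∑ y : F, (if y ∈ Y (j + 1) ∧ u * y + v ∈ W (j + 1) then (1 : ZMod 2) else 0) =
      par (Y (j + 1)) (W (j + 1)) u v := by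
      unfold par; rfl
    rw [e1, e2, hz, zero_add]
  · simp [hd]

lemma ks_const (h : Flags W Y n) (hY0 : ∀ y, y ∈ Y 0) [CharP F 2] (u v v' : F) :
    ∀ j ≤ n, ks W Y i0 j u v = ks W Y i0 j u v' := by
  intro j
  induction j with
  | zero => intro _; rw [ks_zero i0 h hY0, ks_zero i0 h hY0]
  | succ j ih =>
    intro hj
    rw [ks_succ i0 h u v j hj, ks_succ i0 h u v' j hj, ih (by omega)]
    congr 1
    split_ifs with h1
    · apply par_const
      rw [h.cY (j + 1) (by omega), h.cW (j + 1) (by omega) (by omega)]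
    · rfl

lemma ks_eq_zero (h : Flags W Y n) (hY0 : ∀ y, y ∈ Y 0) [CharP F 2] (u v y1 : F) (hy1 : y1 ≠ 0)
    (hy : ∀ i ≤ n, y1 ∈ Y i) (hu : ∀ i, 1 ≤ i → i ≤ n → u * y1 ∈ W i) :
    ∀ j ≤ n, ks W Y i0 j u v = 0 := by
  intro j
  induction j with
  | zero => intro _; rw [ks_zero i0 h hY0]
  | succ j ih =>
    intro hj
    rw [ks_succ i0 h u v j hj, ih (by omega), zero_add]
    split_ifs with h1
    · exact par_zero _ _ u v y1 (hy _ hj) hy1 (hu _ (by omega) hj)
    · rfl

end Pool.Agent.W264.AV
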