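import Pool.Agent.W264.AV.KS

/-! Selecting rows with a prescribed total. -/

set_option autoImplicit false
set_option linter.unusedSectionVars false

namespace Pool.Agent.W264.AV

open Finset Pool.Agent.H598R3

lemma al_lt (i0 : ℕ) : ∀ j, j < i0 → al i0 j = 2 ^ (j + 1) := by
  intro j
  induction j with
  | zero => intro _; rfl
  | succ j ih =>
    intro hj
    simp only [al]
    rw [ih (by omega), if_pos (by omega), pow_succ 2 (j + 1)]
    omega

lemma al_ge (i0 : ℕ) (h0 : 1 ≤ i0) : ∀ l, al i0 (i0 + l) + 2 ^ i0 = 2 ^ (i0 + l + 1) := by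
  intro l
  induction l with
  | zero =>
    obtain ⟨c, rfl⟩ : ∃ c, i0 = c + 1 := ⟨i0 - 1, by omega⟩
    simp only [add_zero, al]
    rw [al_lt (c + 1) c (by omega), if_neg (by omega), pow_succ 2 (c + 1)]
    omega
  | succ l ih =>
    rw [show i0 + (l + 1) = (i0 + l) + 1 by ring]
    simp only [al]
    rw [if_pos (by omega), pow_succ 2 (i0 + l + 1)]
    omega

lemma al_even (i0 : ℕ) : ∀ j, 2 ∣ al i0 j := by
  intro j
  induction j with
  | zero => exact ⟨1, rfl⟩
  | succ j ih =>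
    simp only [al]
    split_ifs
    · exact dvd_add ih (dvd_pow_self 2 (by omega))
    · simpa using ih

lemma al_two (i0 : ℕ) : ∀ j, 2 ≤ al i0 j := by
  intro j
  induction j with
  | zero => exact le_refl _
  | succ j ih =>
    simp only [al]
    omega

/-- the partial sums -/
def SS (i0 : ℕ) : ℕ → ℕ
  | 0 => 0
  | (j + 1) => SS i0 j + (al i0 (j + 1) - 2)

lemma wcond (i0 : ℕ) (h0 : 2 ≤ i0) (j : ℕ) : al i0 (j + 1) ≤ 3 * SS i0 j + 4 := by
  rcases j with _ | j
  · have := al_lt i0 1 (by omega)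
    simp only [zero_add, SS]
    omega
  · have h1 : SS i0 (j + 1) = SS i0 j + (al i0 (j + 1) - 2) := rfl
    rcases lt_trichotomy (j + 1) i0 with h | h | h
    · have h2 := al_lt i0 (j + 1) h
      have h3 : al i0 (j + 1 + 1) ≤ al i0 (j + 1) + 2 ^ (j + 1 + 1) := by
        simp only [al]; split_ifs <;> omega
      have h4 : 2 ≤ 2 ^ (j + 1 + 1) := by
        rw [pow_succ]; have := Nat.one_le_two_pow (n := j + 1); omega
      omega
    · obtain ⟨c, rfl⟩ : ∃ c, j = c + 1 := ⟨j - 1, by omega⟩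
      have h5 : SS i0 (c + 1) = SS i0 c + (al i0 (c + 1) - 2) := rfl
      have h6 := al_lt i0 (c + 1) (by omega)
      have h7 := al_ge i0 (by omega) 0
      have h8 := al_ge i0 (by omega) 1
      subst h
      simp only [add_zero] at h7
      have e1 : (2 : ℕ) ^ (c + 1 + 1 + 1) = 2 * 2 ^ (c + 1 + 1) := by rw [pow_succ]; ring
      have e2 : (2 : ℕ) ^ (c + 1 + 1 + 1 + 1) = 4 * 2 ^ (c + 1 + 1) := by
        rw [pow_succ, pow_succ]; ring
      have e3 : 4 ≤ (2 : ℕ) ^ (c + 1 + 1) := by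
        have := Nat.one_le_two_pow (n := c)
        rw [pow_succ, pow_succ]; omega
      omega
    · obtain ⟨l, hl⟩ : ∃ l, j = i0 + l := ⟨j - i0, by omega⟩
      subst hl
      have h7 := al_ge i0 (by omega) (l + 1)
      have h8 := al_ge i0 (by omega) (l + 1 + 1)
      have e0 : i0 + (l + 1) = i0 + l + 1 := by ring
      have e0' : i0 + (l + 1 + 1) = i0 + l + 1 + 1 := by ring
      rw [e0] at h7
      rw [e0'] at h8
      have e1 : (2 : ℕ) ^ (i0 + l + 1 + 1 + 1) = 2 * 2 ^ (i0 + l + 1 + 1) := by rw [pow_succ]; ring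
      have e2 : (2 : ℕ) ^ (i0 + l + 1 + 1) = 4 * (2 ^ i0 * 2 ^ l) := by
        rw [pow_succ, pow_succ, pow_add]; ring
      have e3 : (2 : ℕ) ^ i0 * 1 ≤ 2 ^ i0 * 2 ^ l := Nat.mul_le_mul_left _ Nat.one_le_two_pow
      have e4 : 4 ≤ (2 : ℕ) ^ i0 := by
        calc 4 = 2 ^ 2 := by norm_num
          _ ≤ 2 ^ i0 := Nat.pow_le_pow_right (by omega) h0
      omega

lemma SS_big (i0 n : ℕ) (h0 : 2 ≤ i0) (hn : i0 + 2 ≤ n) (hb : 6 * 2 ^ i0 + 12 ≤ 2 ^ n) :
    2 ^ (n + 3) ≤ 3 * SS i0 n := by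
  obtain ⟨l, rfl⟩ : ∃ l, n = i0 + l + 1 + 1 := ⟨n - i0 - 2, by omega⟩
  have h1 : SS i0 (i0 + l + 1 + 1) = SS i0 (i0 + l) + (al i0 (i0 + l + 1) - 2) +
    (al i0 (i0 + l + 1 + 1) - 2) := rfl
  have h7 := al_ge i0 (by omega) (l + 1)
  have h8 := al_ge i0 (by omega) (l + 1 + 1)
  have e0 : i0 + (l + 1) = i0 + l + 1 := by ring
  have e0' : i0 + (l + 1 + 1) = i0 + l + 1 + 1 := by ring
  rw [e0] at h7
  rw [e0'] at h8
  have e1 : (2 : ℕ) ^ (i0 + l + 1 + 1 + 1) = 2 * 2 ^ (i0 + l + 1 + 1) := by rw [pow_succ]; ring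
  have e2 : (2 : ℕ) ^ (i0 + l + 1 + 1 + 3) = 8 * 2 ^ (i0 + l + 1 + 1) := by rw [pow_add]; ring
  omega

variable {F : Type*} [Field F] [Fintype F] [DecidableEq F]
variable {W Y : ℕ → AddSubgroup F} {n : ℕ} (i0 : ℕ)

open Classical in
lemma level_card (h : Flags W Y n) (hq : Fintype.card F = 2 ^ (n + 3)) (j : ℕ) (hj : j ≤ n) :
    4 ≤ (univ.filter (fun y => y ∈ Y j ∧ y ∉ Y (j + 1))).card := by
  have h1 := h.cY j (by omega)
  have h2 := h.cY (j + 1) (by omega)
  have h3 : univ.filter (fun y => y ∈ Y j ∧ y ∉ Y (j + 1)) =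
      univ.filter (fun y => y ∈ Y j) \ univ.filter (fun y => y ∈ Y (j + 1)) := by
    ext x; simp
  have h4 : (univ.filter (fun y => y ∈ Y (j + 1))) ⊆ (univ.filter (fun y => y ∈ Y j)) := by
    intro x hx
    rw [mem_filter] at hx ⊢
    exact ⟨mem_univ _, h.mY j hj hx.2⟩
  rw [h3, card_sdiff_of_subset h4, card_sub, card_sub]
  obtain ⟨c, hc⟩ : ∃ c, n = j + c := ⟨n - j, by omega⟩
  have h5 : Nat.card (Y (j + 1)) = 4 * 2 ^ c := by
    have h6 : (0 : ℕ) < 2 ^ (j + 1) := by positivity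
    apply Nat.eq_of_mul_eq_mul_right h6
    rw [← h2, hq, hc]
    rw [show j + c + 3 = c + (j + 1) + 2 by ring, pow_add, pow_add]; ring
  have h5' : Nat.card (Y j) = 8 * 2 ^ c := by
    have h6 : (0 : ℕ) < 2 ^ j := by positivity
    apply Nat.eq_of_mul_eq_mul_right h6
    rw [← h1, hq, hc]
    rw [show j + c + 3 = c + j + 3 by ring, pow_add, pow_add]; ring
  have h7 := Nat.one_le_two_pow (n := c)
  omega

lemma card_at (h : Flags W Y n) (y : F) (j : ℕ) (hj : j ≤ n) (h1 : y ∈ Y j) (h2 : y ∉ Y (j + 1)) :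
    (KS W Y i0 n y).card = al i0 j := by
  obtain ⟨l, rfl⟩ : ∃ l, n = j + l := ⟨n - j, by omega⟩
  rw [card_notMem i0 h y j h2 l (le_refl _), card_mem i0 h y j hj h1]

lemma sel (h : Flags W Y n) (hq : Fintype.card F = 2 ^ (n + 3)) (h0 : 2 ≤ i0) :
    ∀ j ≤ n, ∀ B, 2 ∣ B → B ≤ 3 * SS i0 j → ∃ T : Finset F,
      (∀ y ∈ T, y ∈ Y 1 ∧ y ∉ Y (j + 1)) ∧ T.card ≤ 3 * j ∧
      ∑ y ∈ T, (KS W Y i0 n y).card = 2 * T.card + B := by
  classical
  intro j
  induction j with
  | zero =>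
    intro _ B _ hB
    refine ⟨∅, by simp, by simp, ?_⟩
    simp only [SS] at hB
    simp
    omega
  | succ j ih =>
    intro hj B hB2 hB
    have h1 : SS i0 (j + 1) = SS i0 j + (al i0 (j + 1) - 2) := rfl
    have h2 := wcond i0 h0 j
    have h3 := al_two i0 (j + 1)
    have h4 := al_even i0 (j + 1)
    obtain ⟨c, hc3, hc1, hc2⟩ : ∃ c ≤ 3, c * (al i0 (j + 1) - 2) ≤ B ∧
        B - c * (al i0 (j + 1) - 2) ≤ 3 * SS i0 j := by
      by_cases g0 : B ≤ 3 * SS i0 j
      · exact ⟨0, by omega, by omega, by omega⟩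
      by_cases g1 : B ≤ 3 * SS i0 j + (al i0 (j + 1) - 2)
      · refine ⟨1, by omega, ?_, by omega⟩
        omega
      by_cases g2 : B ≤ 3 * SS i0 j + 2 * (al i0 (j + 1) - 2)
      · exact ⟨2, by omega, by omega, by omega⟩
      · exact ⟨3, by omega, by omega, by omega⟩
    obtain ⟨B', hB'⟩ : ∃ B', B = B' + c * (al i0 (j + 1) - 2) :=
      ⟨B - c * (al i0 (j + 1) - 2), by omega⟩
    have hd : 2 ∣ c * (al i0 (j + 1) - 2) := Dvd.dvd.mul_left (by omega) c
    obtain ⟨T, hT1, hT2, hT3⟩ := ih (by omega) B' (by omega) (by omega)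
    have h5 := level_card h hq (j + 1) hj
    obtain ⟨C, hC1, hC2⟩ := Finset.exists_subset_card_eq
      (show c ≤ (univ.filter (fun y => y ∈ Y (j + 1) ∧ y ∉ Y (j + 1 + 1))).card by omega)
    have hdis : Disjoint T C := by
      rw [Finset.disjoint_left]
      intro y hy hy2
      have h6 := hC1 hy2
      rw [mem_filter] at h6
      exact (hT1 y hy).2 h6.2.1
    refine ⟨T ∪ C, ?_, ?_, ?_⟩
    · intro y hy
      rw [mem_union] at hy
      rcases hy with hy | hy
      · exact ⟨(hT1 y hy).1, fun h6 => (hT1 y hy).2 (h.mY (j + 1) (by omega) h6)⟩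
      · have h6 := hC1 hy
        rw [mem_filter] at h6
        refine ⟨?_, h6.2.2⟩
        have h7 : ∀ i, i + 1 ≤ n → y ∈ Y (i + 1) → y ∈ Y 1 := by
          intro i
          induction i with
          | zero => intro _ h8; exact h8
          | succ i ihi => intro h9 h8; exact ihi (by omega) (h.mY (i + 1) (by omega) h8)
        exact h7 j hj h6.2.1
    · rw [card_union_of_disjoint hdis]; omega
    · rw [Finset.sum_union hdis, hT3, card_union_of_disjoint hdis]
      have h8 : ∑ y ∈ C, (KS W Y i0 n y).card = c * al i0 (j + 1) := by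
        rw [← hC2, ← smul_eq_mul, ← Finset.sum_const]
        apply Finset.sum_congr rfl
        intro y hy
        have h6 := hC1 hy
        rw [mem_filter] at h6
        exact card_at i0 h y (j + 1) hj h6.2.1 h6.2.2
      rw [h8, hB', hC2]
      obtain ⟨a, ha⟩ : ∃ a, al i0 (j + 1) = a + 2 := ⟨al i0 (j + 1) - 2, by omega⟩
      rw [ha, Nat.add_sub_cancel]
      ring

lemma sel_final (h : Flags W Y n) (hq : Fintype.card F = 2 ^ (n + 3)) (h0 : 2 ≤ i0)
    (hY0 : ∀ y, y ∈ Y 0) (t B : ℕ) (hB2 : 2 ∣ B) (hB : B ≤ 3 * SS i0 n) (ht1 : 3 * n ≤ t)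
    (ht2 : 2 * t ≤ Fintype.card F) : ∃ T : Finset F, T.card = t ∧
      ∑ y ∈ T, (KS W Y i0 n y).card = 2 * t + B := by
  classical
  obtain ⟨T, hT1, hT2, hT3⟩ := sel i0 h hq h0 n (le_refl _) B hB2 hB
  have hc : 2 * (univ.filter (fun y => y ∉ Y 1)).card = Fintype.card F := by
    have h1 := Finset.card_filter_add_card_filter_not (s := (univ : Finset F)) (fun y => y ∈ Y 1)
    rw [card_sub, card_univ] at h1
    have h2 := h.cY 1 (by omega)
    omega
  obtain ⟨C, hC1, hC2⟩ := Finset.exists_subset_card_eq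
    (show t - T.card ≤ (univ.filter (fun y => y ∉ Y 1)).card by omega)
  have hdis : Disjoint T C := by
    rw [Finset.disjoint_left]
    intro y hy hy2
    have h6 := hC1 hy2
    rw [mem_filter] at h6
    exact h6.2 (hT1 y hy).1
  refine ⟨T ∪ C, ?_, ?_⟩
  · rw [card_union_of_disjoint hdis]; omega
  · rw [Finset.sum_union hdis, hT3]
    have h8 : ∑ y ∈ C, (KS W Y i0 n y).card = (t - T.card) * 2 := by
      rw [← hC2, ← smul_eq_mul, ← Finset.sum_const]
      apply Finset.sum_congr rfl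
      intro y hy
      have h6 := hC1 hy
      rw [mem_filter] at h6
      exact card_at i0 h y 0 (by omega) (hY0 y) h6.2
    rw [h8]
    omega

end Pool.Agent.W264.AV
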