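import Pool.Agent.W264.AV.Fam
import Pool.Agent.W264.AV.Sel

/-! The middle sizes for even order. -/

set_option autoImplicit false
set_option linter.unusedSectionVars false

namespace Pool.Agent.W264.AV

open Finset Pool.Agent.H598R3

lemma arith (q M : ℕ) (hq4 : 4 ∣ q) (hq : 64 ≤ q) (hM : 2 ∣ M) : ∃ t B : ℕ, 2 ∣ B ∧ B ≤ q ∧
    t * q = M + 6 * t + 2 * B ∧ ∀ a, M ≤ a * q → t ≤ 2 * a + 2 := by
  obtain ⟨p, hp⟩ : ∃ p, q = p + 6 := ⟨q - 6, by omega⟩
  have h1 : M = M / p * p + M % p := by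
    have := Nat.div_add_mod M p
    rw [mul_comm] at this
    exact this.symm
  have h2 : M % p < p := Nat.mod_lt _ (by omega)
  set s := M / p with hs
  set r := M % p with hr
  have h3 : 2 ∣ s * p := Dvd.dvd.mul_left (by omega) s
  obtain ⟨P, hP⟩ : ∃ P, P = s * p := ⟨_, rfl⟩
  rw [← hP] at h1 h3
  have hup : ∀ a, M ≤ a * q → s ≤ 2 * a := by
    intro a ha
    have h4 : s * p ≤ 2 * a * p := by
      have h5 : a * q = a * p + 6 * a := by rw [hp]; ring
      have h6 : 6 * a ≤ a * p := by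
        rw [mul_comm a p]; exact Nat.mul_le_mul_right a (by omega)
      have h7 : 2 * a * p = a * p + a * p := by ring
      rw [h7, ← hP]; omega
    exact Nat.le_of_mul_le_mul_right h4 (by omega)
  by_cases h4 : r % 4 = 2
  · refine ⟨s + 1, (p - r) / 2, by omega, by omega, ?_, fun a ha => by have := hup a ha; omega⟩
    have h5 : (s + 1) * q = P + 6 * s + p + 6 := by rw [hp, hP]; ring
    rw [h5]
    omega
  · refine ⟨s + 2, (2 * p - r) / 2, by omega, by omega, ?_, fun a ha => by have := hup a ha; omega⟩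
    have h5 : (s + 2) * q = P + 6 * s + 2 * p + 12 := by rw [hp, hP]; ring
    rw [h5]
    omega

variable {F : Type*} [Field F] [Fintype F] [DecidableEq F]
variable {W Y : ℕ → AddSubgroup F} {n : ℕ} (i0 : ℕ)

lemma al_le (i0 : ℕ) (h0 : 1 ≤ i0) (l : ℕ) : al i0 l ≤ 2 ^ (l + 1) := by
  rcases lt_or_ge l i0 with h | h
  · rw [al_lt i0 l h]
  · obtain ⟨c, rfl⟩ : ∃ c, l = i0 + c := ⟨l - i0, by omega⟩
    have h1 := al_ge i0 h0 c
    have h2 : 0 < (2 : ℕ) ^ i0 := by positivity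
    omega

lemma al_avoid (i0 k d : ℕ) (h0 : 2 ≤ i0) (hk1 : 2 ^ i0 + 3 ≤ k) (hk2 : k ≤ 2 * 2 ^ i0 + 2)
    (hd : d ≤ 1) (l : ℕ) : al i0 l + 1 + d ≠ k := by
  have h4 : 4 ≤ (2 : ℕ) ^ i0 := by
    calc 4 = 2 ^ 2 := by norm_num
      _ ≤ 2 ^ i0 := Nat.pow_le_pow_right (by omega) h0
  rcases lt_or_ge l i0 with h | h
  · have h1 := al_lt i0 l h
    have h2 : 2 ^ (l + 1) ≤ 2 ^ i0 := Nat.pow_le_pow_right (by omega) h
    omega
  · obtain ⟨c, rfl⟩ : ∃ c, l = i0 + c := ⟨l - i0, by omega⟩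
    have h3 := al_ge i0 (by omega) c
    rcases c with _ | c
    · have h5 : (2 : ℕ) ^ (i0 + 0 + 1) = 2 * 2 ^ i0 := by rw [add_zero, pow_succ]; ring
      omega
    · have h5 : (2 : ℕ) ^ (i0 + (c + 1) + 1) = 4 * (2 ^ i0 * 2 ^ c) := by
        rw [show i0 + (c + 1) + 1 = i0 + c + 2 by ring, pow_add, pow_add]; ring
      have e3 : (2 : ℕ) ^ i0 * 1 ≤ 2 ^ i0 * 2 ^ c := Nat.mul_le_mul_left _ Nat.one_le_two_pow
      omega

lemma exists_fam [CharP F 2] (β γ : F) (hβ : β ≠ 0) (hp : ks W Y i0 n β 0 = 0)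
    (hp0 : ks W Y i0 n (0 : F) 0 = 0) (π : ZMod 2) (X : ℕ)
    (hX : X = N1 W Y i0 n + 1 ∨ X = Fintype.card F - (N1 W Y i0 n + 1)) :
    ∃ b : F, (Kb W Y i0 n b γ π none).card = X := by
  rcases zmod2_cases π with rfl | rfl
  · rcases hX with rfl | rfl
    · exact ⟨β, card_b i0 β γ hβ hp⟩
    · refine ⟨0, ?_⟩
      have h1 := card_0 (W := W) (Y := Y) (n := n) i0 γ hp0
      have h2 := card_compl_pi (W := W) (Y := Y) (n := n) i0 (0 : F) γ
      have h3 : (Kb W Y i0 n (0 : F) γ 0 none).card ≤ Fintype.card F := card_le_univ _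
      omega
  · rcases hX with rfl | rfl
    · exact ⟨0, card_0 i0 γ hp0⟩
    · refine ⟨β, ?_⟩
      have h1 := card_b (W := W) (Y := Y) (n := n) i0 β γ hβ hp
      have h2 := card_compl_pi (W := W) (Y := Y) (n := n) i0 β γ
      omega

lemma N1_le [CharP F 2] (β γ : F) (hβ : β ≠ 0) (hp : ks W Y i0 n β 0 = 0) :
    N1 W Y i0 n + 1 ≤ Fintype.card F := by
  have h1 := card_b (W := W) (Y := Y) (n := n) i0 β γ hβ hp
  have h3 : (Kb W Y i0 n β γ 0 none).card ≤ Fintype.card F := card_le_univ _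
  omega

theorem mid_main [CharP F 2] (h : Flags W Y n) (hq : Fintype.card F = 2 ^ (n + 3))
    (hY0 : ∀ y, y ∈ Y 0) (β γ : F) (hβ : β ≠ 0) (hp : ks W Y i0 n β 0 = 0)
    (hp0 : ks W Y i0 n (0 : F) 0 = 0)
    (V : AddSubgroup F) (hV : ∀ z : F, z ^ 2 + z ∈ V) (hγ : γ ∉ V) (hWV : W (n + 1) ≤ V)
    (h0 : 2 ≤ i0) (hin : i0 + 2 ≤ n) (hb : 6 * 2 ^ i0 + 12 ≤ 2 ^ n) (k m : ℕ)
    (hk1 : 2 ^ i0 + 3 ≤ k) (hk2 : k ≤ 2 * 2 ^ i0 + 2) (hk3 : 4 * n + 8 ≤ k)
    (hm1 : k * Fintype.card F ≤ m + 3 * Fintype.card F)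
    (hm2 : m ≤ (k + 3) * Fintype.card F) : Sz F k m := by
  classical
  set q := Fintype.card F with hqdef
  have hq8 : q = 8 * 2 ^ n := by rw [hq, pow_add]; ring
  have hNle := N1_le (W := W) (Y := Y) (n := n) i0 β γ hβ hp
  rw [← hqdef] at hNle
  set N := N1 W Y i0 n with hN
  set R := ∑ y, (KS W Y i0 n y).card with hR
  have hRle : R ≤ (n + 2) * q := sum_card_le i0 h n (le_refl _)
  obtain ⟨d, hd1, hd2⟩ : ∃ d ≤ 1, (m + R + N + 1 + d) % 2 = 0 := by
    rcases Nat.mod_two_eq_zero_or_one (m + R + N + 1) with h1 | h1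
    · exact ⟨0, by omega, by omega⟩
    · exact ⟨1, by omega, by omega⟩
  obtain ⟨X, hX, hXk, hXq, hX2⟩ : ∃ X, (X = N + 1 ∨ X = q - (N + 1)) ∧ X + d ≠ k ∧ X ≤ q ∧
      X % 2 = (N + 1) % 2 := by
    by_cases h1 : N + 1 + d = k
    · exact ⟨q - (N + 1), Or.inr rfl, by omega, by omega, by omega⟩
    · exact ⟨N + 1, Or.inl rfl, h1, hNle, rfl⟩
  -- the remaining amount
  have hkn : (n + 5) * q + (k - n - 8) * q = (k - 3) * q := by
    rw [← add_mul]; congr 1; omega
  have hk3' : (k - 3) * q + 3 * q = k * q := by rw [← add_mul]; congr 1; omega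
  have e5 : (n + 5) * q = (n + 2) * q + 3 * q := by ring
  obtain ⟨M, hM⟩ : ∃ M, m = (R + q + X + d) + M := ⟨m - (R + q + X + d), by omega⟩
  obtain ⟨t, B, hB2, hBq, ht, hta⟩ := arith q M (by omega) (by omega) (by omega)
  have ht1 : 3 * n ≤ t := by
    have h1 : (k - n - 8) * q ≤ t * q := by omega
    have h2 := Nat.le_of_mul_le_mul_right h1 (by omega)
    omega
  have ht2 : 2 * t ≤ q := by
    have h1 := hta (k + 3) (by omega)
    omega
  have hSS := SS_big i0 n h0 hin hb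
  obtain ⟨T, hT1, hT2⟩ := sel_final i0 h hq h0 hY0 t B hB2 (by rw [← hq] at hSS; omega) ht1 ht2
  set π : ZMod 2 := (k : ZMod 2) + 1 + (t : ZMod 2) with hπ
  obtain ⟨b, hbX⟩ := exists_fam (W := W) (Y := Y) (n := n) i0 β γ hβ hp hp0 π X hX
  set K := Kb W Y i0 n b γ π with hK
  have hKs : ∀ y, (K (some y)).card = (KS W Y i0 n y).card + 1 :=
    fun y => Kb_card_some i0 h b γ π V hV hγ hWV y
  have hdd : (if (decide (d = 1)) = true then (1 : ℕ) else 0) = d := by
    interval_cases d <;> simp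
  refine ⟨mk (sw K T) (decide (d = 1)), ?_, ?_, ?_⟩
  · have h1 := card_sw K T (decide (d = 1))
    have h2 : (if (decide (d = 1)) = true then (1 : ℤ) else 0) = d := by
      interval_cases d <;> simp
    have h3 : ∑ r, ((K r).card : ℤ) = R + q + X := by
      rw [Fintype.sum_option, hbX, Finset.sum_congr rfl (fun y _ => by rw [hKs y])]
      push_cast
      rw [Finset.sum_add_distrib, Finset.sum_const, card_univ, hR]
      push_cast
      ring
    have h4 : ∑ y ∈ T, ((Fintype.card F : ℤ) - 2 * (K (some y)).card) =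
        t * q - 2 * (2 * t + B) - 2 * t := by
      have h5 : ∀ y ∈ T, ((Fintype.card F : ℤ) - 2 * (K (some y)).card) =
          ((q : ℤ) - 2) - 2 * ((KS W Y i0 n y).card : ℤ) := by
        intro y _
        rw [hKs y]; push_cast; ring
      rw [Finset.sum_congr rfl h5, Finset.sum_sub_distrib, ← Finset.mul_sum, Finset.sum_const,
        nsmul_eq_mul, hT1]
      have h6 : ∑ y ∈ T, ((KS W Y i0 n y).card : ℤ) = 2 * t + B := by exact_mod_cast hT2
      rw [h6]; ring
    rw [h2, h3, h4] at h1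
    have h7 : (t : ℤ) * q = M + 6 * t + 2 * B := by exact_mod_cast ht
    have h8 : (m : ℤ) = (R + q + X + d) + M := by exact_mod_cast hM
    have h9 : ((mk (sw K T) (decide (d = 1))).card : ℤ) = m := by
      rw [h1, h8]; linarith
    exact_mod_cast h9
  · intro r
    have h1 := card_row (sw K T) (decide (d = 1)) r
    rw [hdd] at h1
    have h1' : #{x ∈ mk (sw K T) (decide (d = 1)) | OnRow r x} =
        #(sw K T r) + d := by
      rw [← h1]
    intro h2
    have h3 : #(sw K T r) + d = k := by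
      rw [← h1']; convert h2
    cases r with
    | none =>
      have h4 : sw K T none = K none := by simp [sw]
      rw [h4, hbX] at h3
      exact hXk h3
    | some y =>
      obtain ⟨l, hl, hal⟩ := card_level i0 h y n (le_refl _)
      have h5 := al_avoid i0 k d h0 hk1 hk2 hd1 l
      have h6 := al_le i0 (by omega) l
      have h7 : 2 ^ (l + 1) ≤ 2 * 2 ^ n := by
        rw [pow_succ, mul_comm]
        exact Nat.mul_le_mul_left 2 (Nat.pow_le_pow_right (by omega) hl)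
      by_cases hy : y ∈ T
      · have h4 : sw K T (some y) = (K (some y))ᶜ := by simp [sw, hy]
        rw [h4, card_compl, hKs, hal] at h3
        omega
      · have h4 : sw K T (some y) = K (some y) := by simp [sw, hy]
        rw [h4, hKs, hal] at h3
        omega
  · intro u v
    refine line_ok K T _ u v k π (Kb_parity i0 h hY0 b γ π V hV hγ hWV u v) ?_
    rw [hT1, hπ]
    have h2 : ∀ x y : ZMod 2, x + 1 + y + y ≠ x := by decide
    exact h2 _ _

end Pool.Agent.W264.AV
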